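import Pool.Agent.Q266.RP.Stm

/-! Project RP (MP_6bdd40_al), job COMM. -/

set_option autoImplicit false

namespace Pool.Agent.Q76.RP

open Pool.Agent.Q266.RP

theorem comm : S_COMM := by
  intro p G _ h k x g
  set q := p ^ k with hq
  have h1 : x ^ q * g = g * x ^ q ↔ (x⁻¹ * (g * x * g⁻¹)) ^ q = 1 := by
    rw [← h k x (g * x * g⁻¹), conj_pow]
    constructor
    · intro h2
      rw [eq_mul_inv_iff_mul_eq]
      exact h2
    · intro h2
      rwa [eq_mul_inv_iff_mul_eq] at h2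
  have h2 : x * g ^ q = g ^ q * x ↔ (g⁻¹ * (x * g * x⁻¹)) ^ q = 1 := by
    rw [← h k g (x * g * x⁻¹), conj_pow]
    constructor
    · intro h2
      rw [eq_mul_inv_iff_mul_eq]
      exact h2.symm
    · intro h2
      rw [eq_mul_inv_iff_mul_eq] at h2
      exact h2.symm
  have h3 : g⁻¹ * (x * g * x⁻¹) = (g⁻¹ * x) * (x⁻¹ * (g * x * g⁻¹))⁻¹ * (g⁻¹ * x)⁻¹ := by
    group
  rw [h1, h2, h3, conj_pow, inv_pow, conj_eq_one_iff, inv_eq_one]

end Pool.Agent.Q76.RP
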